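import Mathlib
import Pool.Agent.Lib.PF74.Datum

/-!
The groups of Q1 with a non-trivial abelian normal subgroup: an exact description.
-/

set_option autoImplicit false

namespace Pool.Agent.Results.MP_54eac4_al.CentralCase

universe u

/-- A group `G` satisfies the three conditions of Q1 and has a non-trivial abelian normal subgroup
if and only if `G` is a finitely presented perfect torsion free group with infinite cyclic centre
whose central quotient is a finitely presented infinite simple torsion group all of whose proper
subgroups are finite cyclic. -/
theorem result (G : Type u) [Group G] :
    (Pool.Agent.PF74.Exotic G ∧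
      ∃ N : Subgroup G, N.Normal ∧ N ≠ ⊥ ∧ ∀ a ∈ N, ∀ b ∈ N, a * b = b * a) ↔
      Pool.Agent.PF74.CentralDatum G :=
  Pool.Agent.PF74.central_case G

end Pool.Agent.Results.MP_54eac4_al.CentralCase
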