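import Mathlib
import Pool.Agent.Lib.PF74.Datum

/-!
Normal subgroups of the groups of Q1.
-/

set_option autoImplicit false

namespace Pool.Agent.Results.MP_54eac4_al.NormalSubgroups

universe u

/-- A group which satisfies the three conditions of Q1 has a proper subgroup of finite index, or it
is perfect and each of its finitely generated proper normal subgroups is central. -/
theorem result (G : Type u) [Group G] (h : Pool.Agent.PF74.Exotic G) :
    (∃ K : Subgroup G, K ≠ ⊤ ∧ K.FiniteIndex) ∨
      (_root_.commutator G = ⊤ ∧
        ∀ N : Subgroup G, N.Normal → N ≠ ⊤ → N.FG → N ≤ Subgroup.center G) :=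
  Pool.Agent.PF74.normal_case G h

end Pool.Agent.Results.MP_54eac4_al.NormalSubgroups
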